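import Mathlib

/-! A 4-regular Ramanujan graph on 16 vertices whose connectivity codes have fewer than
16 members. -/

namespace Pool.Agent.Results.MP_7d4bc7_co.SquareOfCycle

section Defs

variable {V : Type*} [Fintype V] [DecidableEq V]

/-- A connectivity code for `H`: a finite family of spanning subgraphs of `H` such that the
symmetric difference of any two distinct members is connected (on the full vertex set). -/
def IsCode (H : SimpleGraph V) (C : Finset (SimpleGraph V)) : Prop :=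
  (∀ F ∈ C, F ≤ H) ∧ ∀ F ∈ C, ∀ F' ∈ C, F ≠ F' → (symmDiff F F').Connected

/-- `m(H)`: the largest size of a connectivity code for `H`. -/
noncomputable def maxCode (H : SimpleGraph V) : ℕ :=
  sSup {k | ∃ C : Finset (SimpleGraph V), IsCode H C ∧ C.card = k}

/-- `H` is a connected `d`-regular Ramanujan graph: every adjacency eigenvalue other than `d`
(and, if `H` is bipartite, other than `-d`) has absolute value at most `2 √(d-1)`. -/
def IsRamanujan (H : SimpleGraph V) [DecidableRel H.Adj] (d : ℕ) : Prop :=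
  H.Connected ∧ H.IsRegularOfDegree d ∧
    ∀ μ ∈ spectrum ℝ (H.adjMatrix ℝ), μ ≠ d → (H.IsBipartite → μ ≠ -d) →
      |μ| ≤ 2 * Real.sqrt (d - 1)

end Defs

/-- the square of the cycle on 16 vertices -/
def H : SimpleGraph (ZMod 16) where
  Adj x y := y - x = 1 ∨ y - x = 2 ∨ y - x = -1 ∨ y - x = -2
  symm := ⟨by decide +kernel⟩
  loopless := ⟨by decide +kernel⟩

instance : DecidableRel H.Adj := fun x y =>
  inferInstanceAs (Decidable (y - x = 1 ∨ y - x = 2 ∨ y - x = -1 ∨ y - x = -2))

lemma H_reg : H.IsRegularOfDegree 4 := by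
  intro x
  revert x
  decide +kernel

lemma H_conn : H.Connected := by
  have h1 : ∀ n : ℕ, H.Reachable 0 (n : ZMod 16) := by
    intro n
    induction n with
    | zero => simp
    | succ n ih =>
      refine ih.trans (SimpleGraph.Adj.reachable ?_)
      left
      push_cast
      ring
  have h2 : ∀ x : ZMod 16, H.Reachable 0 x := by
    intro x
    have := h1 x.val
    rwa [ZMod.natCast_val, ZMod.cast_id] at this
  have : Nonempty (ZMod 16) := ⟨0⟩
  exact SimpleGraph.Connected.mk fun x y => (h2 x).symm.trans (h2 y)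

/-- eigenvectors of the cycle of length 16 -/
lemma cycle_eig {u : ZMod 16 → ℝ} {c : ℝ} (hu : u ≠ 0)
    (h : ∀ x, u (x + 1) + u (x - 1) = c * u x) :
    c = 0 ∨ c ^ 2 = 4 ∨ c ^ 2 = 2 ∨ (c ^ 2 - 2) ^ 2 = 2 := by
  have h2 : ∀ x, u (x + 2) + u (x - 2) = (c ^ 2 - 2) * u x := by
    intro x
    have e1 := h (x + 1)
    have e2 := h (x - 1)
    have e3 := h x
    rw [show x + 1 + 1 = x + 2 by ring, show x + 1 - 1 = x by ring] at e1
    rw [show x - 1 + 1 = x by ring, show x - 1 - 1 = x - 2 by ring] at e2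
    have : u (x + 2) + u (x - 2) = c * (u (x + 1) + u (x - 1)) - 2 * u x := by linarith
    rw [this, e3]; ring
  have h4 : ∀ x, u (x + 4) + u (x - 4) = ((c ^ 2 - 2) ^ 2 - 2) * u x := by
    intro x
    have e1 := h2 (x + 2)
    have e2 := h2 (x - 2)
    have e3 := h2 x
    rw [show x + 2 + 2 = x + 4 by ring, show x + 2 - 2 = x by ring] at e1
    rw [show x - 2 + 2 = x by ring, show x - 2 - 2 = x - 4 by ring] at e2
    have : u (x + 4) + u (x - 4) = (c ^ 2 - 2) * (u (x + 2) + u (x - 2)) - 2 * u x := by linarith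
    rw [this, e3]; ring
  have h8 : ∀ x, u (x + 8) + u (x - 8) = (((c ^ 2 - 2) ^ 2 - 2) ^ 2 - 2) * u x := by
    intro x
    have e1 := h4 (x + 4)
    have e2 := h4 (x - 4)
    have e3 := h4 x
    rw [show x + 4 + 4 = x + 8 by ring, show x + 4 - 4 = x by ring] at e1
    rw [show x - 4 + 4 = x by ring, show x - 4 - 4 = x - 8 by ring] at e2
    have : u (x + 8) + u (x - 8) = ((c ^ 2 - 2) ^ 2 - 2) * (u (x + 4) + u (x - 4)) - 2 * u x := by
      linarith
    rw [this, e3]; ring
  have h16 : ∀ x : ZMod 16, x - 8 = x + 8 := by decide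
  have h16' : ∀ x : ZMod 16, x + 8 + 8 = x := by decide
  have h8' : ∀ x, 2 * u (x + 8) = (((c ^ 2 - 2) ^ 2 - 2) ^ 2 - 2) * u x := by
    intro x
    have := h8 x
    rw [h16] at this
    linarith
  obtain ⟨x, hx⟩ : ∃ x, u x ≠ 0 := by
    by_contra hcon
    push Not at hcon
    exact hu (funext hcon)
  have e1 := h8' x
  have e2 := h8' (x + 8)
  rw [h16'] at e2
  set T := ((c ^ 2 - 2) ^ 2 - 2) ^ 2 - 2 with hT
  have e3 : (T ^ 2 - 4) * u x = 0 := by
    have : T * (2 * u (x + 8)) = T * (T * u x) := by rw [e1]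
    linarith
  have e4 : T ^ 2 - 4 = 0 := (mul_eq_zero.1 e3).resolve_right hx
  have e5 : (T - 2) * (T + 2) = 0 := by linarith
  rcases mul_eq_zero.1 e5 with h6 | h6
  · have : (c ^ 2 * (c ^ 2 - 4)) * (c ^ 2 - 2) ^ 2 = 0 := by
      rw [hT] at h6
      nlinarith
    rcases mul_eq_zero.1 this with h7 | h7
    · rcases mul_eq_zero.1 h7 with h9 | h9
      · left; exact pow_eq_zero_iff (two_ne_zero) |>.1 h9
      · right; left; linarith
    · right; right; left
      have := pow_eq_zero_iff (two_ne_zero) |>.1 h7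
      linarith
  · have : ((c ^ 2 - 2) ^ 2 - 2) ^ 2 = 0 := by
      rw [hT] at h6
      linarith
    have := pow_eq_zero_iff (two_ne_zero) |>.1 this
    right; right; right; linarith

lemma H_eig {v : ZMod 16 → ℝ} {μ : ℝ} (hv : v ≠ 0)
    (h : ∀ x, v (x + 1) + v (x - 1) + v (x + 2) + v (x - 2) = μ * v x) :
    ∃ c, μ = c ^ 2 + c - 2 ∧ (c = 0 ∨ c ^ 2 = 4 ∨ c ^ 2 = 2 ∨ (c ^ 2 - 2) ^ 2 = 2) := by
  -- positivity of the discriminant
  set w : ZMod 16 → ℝ := fun x => v (x + 1) + v (x - 1) with hw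
  have hww : ∀ x, w (x + 1) + w (x - 1) = v (x + 2) + v (x - 2) + 2 * v x := by
    intro x
    simp only [hw]
    rw [show x + 1 + 1 = x + 2 by ring, show x + 1 - 1 = x by ring,
      show x - 1 + 1 = x by ring, show x - 1 - 1 = x - 2 by ring]
    ring
  have hrel : ∀ x, w (x + 1) + w (x - 1) + w x - 2 * v x = μ * v x := by
    intro x
    rw [hww, ← h x]
    simp only [hw]
    ring
  have hsum : ∑ x, v x * (w (x + 1) + w (x - 1)) = ∑ x, w x ^ 2 := by
    have e1 : ∑ x, v x * w (x + 1) = ∑ x, v (x - 1) * w x := by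
      rw [← Equiv.sum_comp (Equiv.addRight (1 : ZMod 16)) (fun x => v (x - 1) * w x)]
      refine Finset.sum_congr rfl fun x _ => ?_
      simp
    have e2 : ∑ x, v x * w (x - 1) = ∑ x, v (x + 1) * w x := by
      rw [← Equiv.sum_comp (Equiv.subRight (1 : ZMod 16)) (fun x => v (x + 1) * w x)]
      refine Finset.sum_congr rfl fun x _ => ?_
      simp
    simp only [mul_add, Finset.sum_add_distrib]
    rw [e1, e2, ← Finset.sum_add_distrib]
    refine Finset.sum_congr rfl fun x _ => ?_
    simp only [hw]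
    ring
  have hdisc : 0 ≤ 9 + 4 * μ := by
    have e1 : ∑ x, (w x + v x / 2) ^ 2 = (μ + 9 / 4) * ∑ x, v x ^ 2 := by
      have e2 : ∀ x, (w x + v x / 2) ^ 2 = (w x ^ 2 - v x * (w (x + 1) + w (x - 1))) +
          (μ + 9 / 4) * v x ^ 2 := by
        intro x
        have := hrel x
        have e3 : w (x + 1) + w (x - 1) = μ * v x - w x + 2 * v x := by linarith
        rw [e3]
        ring
      rw [Finset.sum_congr rfl fun x _ => e2 x, Finset.sum_add_distrib,
        Finset.sum_sub_distrib, hsum, ← Finset.mul_sum]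
      ring
    have e4 : 0 < ∑ x, v x ^ 2 := by
      obtain ⟨x, hx⟩ : ∃ x, v x ≠ 0 := by
        by_contra hcon
        push Not at hcon
        exact hv (funext hcon)
      exact Finset.sum_pos' (fun i _ => sq_nonneg _) ⟨x, Finset.mem_univ x, by positivity⟩
    have e5 : 0 ≤ (μ + 9 / 4) * ∑ x, v x ^ 2 := by
      rw [← e1]
      exact Finset.sum_nonneg fun i _ => sq_nonneg _
    have := nonneg_of_mul_nonneg_left e5 e4
    linarith
  set r := Real.sqrt (9 + 4 * μ) with hr
  have hr2 : r ^ 2 = 9 + 4 * μ := Real.sq_sqrt hdisc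
  set a := (-1 + r) / 2 with ha
  set b := (-1 - r) / 2 with hb
  have hab : a + b = -1 := by rw [ha, hb]; ring
  have hab2 : a * b = -2 - μ := by rw [ha, hb]; nlinarith
  have hμa : μ = a ^ 2 + a - 2 := by rw [ha]; nlinarith
  have hμb : μ = b ^ 2 + b - 2 := by rw [hb]; nlinarith
  by_cases hu : (fun x => w x - b * v x) = 0
  · refine ⟨b, hμb, cycle_eig hv fun x => ?_⟩
    have := congrFun hu x
    simp only [Pi.zero_apply] at this
    simp only [hw] at this
    linarith
  · refine ⟨a, hμa, cycle_eig hu fun x => ?_⟩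
    have e1 := hrel x
    have e2 : v (x + 1) + v (x - 1) = w x := rfl
    have e3 : w (x + 1) + w (x - 1) = μ * v x - w x + 2 * v x := by linarith
    have e4 : w (x + 1) - b * v (x + 1) + (w (x - 1) - b * v (x - 1)) =
        (w (x + 1) + w (x - 1)) - b * (v (x + 1) + v (x - 1)) := by ring
    rw [e4, e3, e2]
    have e5 : b = -1 - a := by linarith
    have e6 : μ = - 2 - a * b := by linarith
    rw [e6, e5]
    ring

lemma H_ramanujan : IsRamanujan H 4 := by
  refine ⟨H_conn, H_reg, ?_⟩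
  intro μ hμ hμ4 _
  rw [← Matrix.spectrum_toLin', ← Module.End.hasEigenvalue_iff_mem_spectrum] at hμ
  obtain ⟨v, hv⟩ := hμ.exists_hasEigenvector
  have hv0 : v ≠ 0 := hv.2
  have hv1 := Module.End.mem_eigenspace_iff.1 hv.1
  rw [Matrix.toLin'_apply] at hv1
  obtain ⟨c, hc, hcc⟩ := H_eig (v := v) (μ := μ) hv0 (by
    intro x
    have h1 := congrFun hv1 x
    rw [H.adjMatrix_mulVec_apply] at h1
    have hN : H.neighborFinset x = {x + 1, x - 1, x + 2, x - 2} := by
      clear h1
      revert x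
      decide +kernel
    rw [hN, Finset.sum_insert, Finset.sum_insert, Finset.sum_insert, Finset.sum_singleton] at h1
    · rw [Pi.smul_apply, smul_eq_mul] at h1
      linarith
    · clear h1; revert x; decide +kernel
    · clear h1; revert x; decide +kernel
    · clear h1; revert x; decide +kernel)
  have h3 : (3.46 : ℝ) ≤ 2 * Real.sqrt ((4 : ℕ) - 1) := by
    have : (1.73 : ℝ) ≤ Real.sqrt ((4 : ℕ) - 1) := by
      apply Real.le_sqrt_of_sq_le
      norm_num
    linarith
  refine le_trans ?_ h3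
  have hμ4' : μ ≠ 4 := by exact_mod_cast hμ4
  rcases hcc with h | h | h | h
  · rw [hc, h]; norm_num
  · have : (c - 2) * (c + 2) = 0 := by linarith
    rcases mul_eq_zero.1 this with h5 | h5
    · exfalso
      apply hμ4'
      have : c = 2 := by linarith
      rw [hc, this]; norm_num
    · have : c = -2 := by linarith
      rw [hc, this]; norm_num
  · have : μ = c := by rw [hc, h]; ring
    rw [this]
    apply abs_le_of_sq_le_sq _ (by norm_num)
    rw [h]; norm_num
  · have h5 : |c ^ 2 - 2| ≤ 1.42 := by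
      apply abs_le_of_sq_le_sq _ (by norm_num)
      rw [h]; norm_num
    have h6 : |c| ≤ 1.85 := by
      apply abs_le_of_sq_le_sq _ (by norm_num)
      have := (abs_le.1 h5).2
      norm_num at this ⊢
      linarith
    have h7 : μ = (c ^ 2 - 2) + c := by rw [hc]; ring
    rw [h7]
    refine (abs_add_le _ _).trans ?_
    linarith

/-- the cyclic interval `(i, j]` -/
def inW (i j x : ZMod 16) : Prop := (x - i - 1).val < (j - i).val

instance (i j x : ZMod 16) : Decidable (inW i j x) := inferInstanceAs (Decidable (_ < _))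

lemma crossing : ∀ i j x y : ZMod 16, i ≠ j → H.Adj x y → inW i j x → ¬ inW i j y →
    (y = i ∧ x = i + 1) ∨ (y = i - 1 ∧ x = i + 1) ∨ (y = i ∧ x = i + 2) ∨
    (x = j ∧ y = j + 1) ∨ (x = j - 1 ∧ y = j + 1) ∨ (x = j ∧ y = j + 2) := by
  decide +kernel

open Classical in
/-- the trace of a subgraph on the three edges of a cut -/
noncomputable def kap (i : ZMod 16) (F : SimpleGraph (ZMod 16)) : Bool × Bool × Bool :=
  (decide (F.Adj i (i + 1)), decide (F.Adj (i - 1) (i + 1)), decide (F.Adj i (i + 2)))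

lemma kap_eq {i : ZMod 16} {F F' : SimpleGraph (ZMod 16)} (h : kap i F = kap i F') :
    (F.Adj i (i + 1) ↔ F'.Adj i (i + 1)) ∧ (F.Adj (i - 1) (i + 1) ↔ F'.Adj (i - 1) (i + 1)) ∧
    (F.Adj i (i + 2) ↔ F'.Adj i (i + 2)) := by
  simpa [kap] using h

lemma not_conn {i j : ZMod 16} (hij : i ≠ j) {F F' : SimpleGraph (ZMod 16)} (hF : F ≤ H)
    (hF' : F' ≤ H) (hi : kap i F = kap i F') (hj : kap j F = kap j F') :
    ¬ (symmDiff F F').Connected := by
  intro hc
  obtain ⟨p⟩ := hc.preconnected (i + 1) i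
  obtain ⟨d, _, hd1, hd2⟩ := p.exists_boundary_dart {x | inW i j x}
    ((by decide +kernel : ∀ i j : ZMod 16, i ≠ j → inW i j (i + 1)) i j hij)
    ((by decide +kernel : ∀ i j : ZMod 16, i ≠ j → ¬ inW i j i) i j hij)
  have hadj := d.adj
  set x := d.fst with hx
  set y := d.snd with hy
  have hd : (F.Adj x y ∧ ¬ F'.Adj x y) ∨ (F'.Adj x y ∧ ¬ F.Adj x y) := by
    rw [symmDiff_def] at hadj
    simpa [SimpleGraph.sup_adj, SimpleGraph.sdiff_adj] using hadj
  have hH : H.Adj x y := by
    rcases hd with h | h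
    · exact hF h.1
    · exact hF' h.1
  have hiff : F.Adj x y ↔ F'.Adj x y := by
    obtain ⟨a1, a2, a3⟩ := kap_eq hi
    obtain ⟨b1, b2, b3⟩ := kap_eq hj
    rcases crossing i j x y hij hH hd1 hd2 with ⟨h1, h2⟩ | ⟨h1, h2⟩ | ⟨h1, h2⟩ | ⟨h1, h2⟩ |
      ⟨h1, h2⟩ | ⟨h1, h2⟩
    · rw [h1, h2, F.adj_comm, F'.adj_comm]; exact a1
    · rw [h1, h2, F.adj_comm, F'.adj_comm]; exact a2
    · rw [h1, h2, F.adj_comm, F'.adj_comm]; exact a3
    · rw [h1, h2]; exact b1
    · rw [h1, h2]; exact b2
    · rw [h1, h2]; exact b3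
  tauto

open Classical in
lemma pairs_ge (C : Finset (SimpleGraph (ZMod 16))) (hC : C.card = 16) (i : ZMod 16) :
    32 ≤ ((C ×ˢ C).filter fun q => kap i q.1 = kap i q.2).card := by
  have h1 : ((C ×ˢ C).filter fun q => kap i q.1 = kap i q.2).card =
      ∑ t : Bool × Bool × Bool, (C.filter fun F => kap i F = t).card ^ 2 := by
    rw [Finset.card_eq_sum_card_fiberwise (f := fun q => kap i q.1) (t := Finset.univ)
      (fun x _ => by simp)]
    refine Finset.sum_congr rfl fun t _ => ?_
    rw [sq, ← Finset.card_product]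
    congr 1
    ext ⟨F, F'⟩
    simp only [Finset.mem_filter, Finset.mem_product]
    constructor
    · rintro ⟨⟨⟨h1, h2⟩, h3⟩, h4⟩
      exact ⟨⟨h1, h4⟩, h2, h3 ▸ h4⟩
    · rintro ⟨⟨h1, h2⟩, h3, h4⟩
      exact ⟨⟨⟨h1, h3⟩, h2.trans h4.symm⟩, h2⟩
  have h2 : ∑ t : Bool × Bool × Bool, (C.filter fun F => kap i F = t).card = 16 := by
    refine Eq.trans ?_ hC
    exact (Finset.card_eq_sum_card_fiberwise (f := fun F => kap i F) (t := Finset.univ)
      (fun x _ => by simp)).symm
  have h3 := sq_sum_le_card_mul_sum_sq (s := (Finset.univ : Finset (Bool × Bool × Bool)))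
    (f := fun t => (C.filter fun F => kap i F = t).card)
  rw [h2] at h3
  have h4 : (Finset.univ : Finset (Bool × Bool × Bool)).card = 8 := by decide
  rw [h4] at h3
  rw [h1]
  push_cast at h3
  omega

open Classical in
lemma code_card {C : Finset (SimpleGraph (ZMod 16))} (hC : IsCode H C) : C.card ≤ 15 := by
  by_contra hcon
  obtain ⟨C', hC', hcard⟩ := Finset.exists_subset_card_eq (show 16 ≤ C.card by omega)
  have h1 : ∑ i : ZMod 16, ((C' ×ˢ C').filter fun q => kap i q.1 = kap i q.2).card =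
      ∑ q ∈ C' ×ˢ C', (Finset.univ.filter fun i : ZMod 16 => kap i q.1 = kap i q.2).card := by
    simp only [Finset.card_filter]
    rw [Finset.sum_comm]
  have h2 : 16 * 32 ≤ ∑ i : ZMod 16, ((C' ×ˢ C').filter fun q => kap i q.1 = kap i q.2).card := by
    calc 16 * 32 = ∑ _i : ZMod 16, 32 := by simp [ZMod.card]
      _ ≤ _ := Finset.sum_le_sum fun i _ => pairs_ge C' hcard i
  have h3 : ∀ q ∈ C' ×ˢ C', (Finset.univ.filter fun i : ZMod 16 => kap i q.1 = kap i q.2).card ≤
      1 + if q.1 = q.2 then 15 else 0 := by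
    rintro ⟨F, F'⟩ hq
    rw [Finset.mem_product] at hq
    split_ifs with h
    · refine (Finset.card_le_univ _).trans ?_
      simp [ZMod.card]
    · rw [add_zero, Finset.card_le_one]
      intro i hi j hj
      by_contra hij
      rw [Finset.mem_filter] at hi hj
      exact not_conn hij (hC.1 F (hC' hq.1)) (hC.1 F' (hC' hq.2)) hi.2 hj.2
        (hC.2 F (hC' hq.1) F' (hC' hq.2) h)
  have h4 := Finset.sum_le_sum h3
  rw [Finset.sum_add_distrib] at h4
  have h5 : ∑ q ∈ C' ×ˢ C', (if q.1 = q.2 then 15 else 0) = 15 * 16 := by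
    rw [Finset.sum_product]
    simp only [Finset.sum_ite_eq]
    rw [Finset.sum_congr rfl (fun x hx => if_pos hx)]
    simp [hcard]
  rw [h5] at h4
  simp only [Finset.sum_const, Finset.card_product, hcard, smul_eq_mul, mul_one] at h4
  omega

/-- There is a 4-regular Ramanujan graph `H` with `m(H) < 2^4`. -/
theorem result : ∃ (V : Type) (_ : Fintype V) (_ : DecidableEq V) (H : SimpleGraph V)
    (_ : DecidableRel H.Adj), IsRamanujan H 4 ∧ maxCode H < 2 ^ 4 := by
  refine ⟨ZMod 16, inferInstance, inferInstance, H, inferInstance, H_ramanujan, ?_⟩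
  have : maxCode H ≤ 15 := by
    apply csSup_le'
    rintro k ⟨C, hC, rfl⟩
    exact code_card hC
  omega

end Pool.Agent.Results.MP_7d4bc7_co.SquareOfCycle
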